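import Pool.Agent.P.MP_860a31_lc.E.AAex
import Pool.Agent.P.MP_860a31_lc.E.AMain
import Pool.Agent.P.MP_860a31_lc.E.Abs
import Pool.Agent.P.MP_860a31_lc.E.Abs1
import Pool.Agent.P.MP_860a31_lc.E.AbsP
import Pool.Agent.P.MP_860a31_lc.E.AmalgFam
import Pool.Agent.P.MP_860a31_lc.E.BigStep
import Pool.Agent.P.MP_860a31_lc.E.BigSys
import Pool.Agent.P.MP_860a31_lc.E.Closure
import Pool.Agent.P.MP_860a31_lc.E.Cof
import Pool.Agent.P.MP_860a31_lc.E.CofStep
import Pool.Agent.P.MP_860a31_lc.E.DAt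
import Pool.Agent.P.MP_860a31_lc.E.DTrap
import Pool.Agent.P.MP_860a31_lc.E.ExtMap
import Pool.Agent.P.MP_860a31_lc.E.FX
import Pool.Agent.P.MP_860a31_lc.E.FamMorley
import Pool.Agent.P.MP_860a31_lc.E.Glue
import Pool.Agent.P.MP_860a31_lc.E.GoodT
import Pool.Agent.P.MP_860a31_lc.E.HUp
import Pool.Agent.P.MP_860a31_lc.E.KStab
import Pool.Agent.P.MP_860a31_lc.E.LiftMix
import Pool.Agent.P.MP_860a31_lc.E.LongOP
import Pool.Agent.P.MP_860a31_lc.E.Master
import Pool.Agent.P.MP_860a31_lc.E.Nat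
import Pool.Agent.P.MP_860a31_lc.E.NoOP
import Pool.Agent.P.MP_860a31_lc.E.OneB
import Pool.Agent.P.MP_860a31_lc.E.OpEx
import Pool.Agent.P.MP_860a31_lc.E.RealChain
import Pool.Agent.P.MP_860a31_lc.E.RealExt
import Pool.Agent.P.MP_860a31_lc.E.RealStep
import Pool.Agent.P.MP_860a31_lc.E.SRadd
import Pool.Agent.P.MP_860a31_lc.E.SRext
import Pool.Agent.P.MP_860a31_lc.E.SRpair
import Pool.Agent.P.MP_860a31_lc.E.SeqAmalg
import Pool.Agent.P.MP_860a31_lc.E.ShapeEx
import Pool.Agent.P.MP_860a31_lc.E.SigRho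
import Pool.Agent.P.MP_860a31_lc.E.StageIso
import Pool.Agent.P.MP_860a31_lc.E.SubEx
import Pool.Agent.P.MP_860a31_lc.E.TE1
import Pool.Agent.P.MP_860a31_lc.E.TrapBd
import Pool.Agent.P.MP_860a31_lc.E.UL1
import Pool.Agent.P.MP_860a31_lc.E.UU
import Pool.Agent.P.MP_860a31_lc.E.Unif
import Pool.Agent.P.MP_860a31_lc.E.UnivExt
import Pool.Agent.P.MP_860a31_lc.E.UnivRefl
import Pool.Agent.P.MP_860a31_lc.E.UnivSys
import Pool.Agent.P.MP_860a31_lc.E.Upd
import Pool.Agent.P.MP_860a31_lc.E2.KSat2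

open Pool.Agent.P.MP_860a31_lc Pool.Agent.P.MP_860a31_lc.E

namespace Pool.Agent.P.MP_860a31_lc.Old.Eventual

/-- An AEC with amalgamation that is categorical in a cardinal `lam` that is at least
`ℶ_{(2^{LS^{+n}})^+}` for every `n` is Galois-stable in every `θ ≥ lam`. -/
theorem result (L : FirstOrder.Language.{0, 0}) (K : AEC L) (hAP : K.AP) (lam : Cardinal.{0})
    (hl : ∀ n : ℕ, hanf (Order.succ^[n] K.LS) ≤ lam) (hcat : K.Categorical lam)
    (θ : Cardinal.{0}) (hθ : lam ≤ θ) : K.Stable θ :=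
  have hRE := realExt amalgFam
  have hUE := univExt hRE realChain
  have hDT := dtrap closure hUE
  have hSP := srpair (sradd (srext hDT closure)) huBd huMix
  have hTE := topExt sigRho
  have hAS := absSat abs'
  have hA1 := abs1 sigRho
  have hGI := goodIso goodT
  have hUG := updGood upd hGI goodT
  have hSI := stageIso hAS
  have hM := master (ul1 (absP hA1) hTE) (dAt (trapBd hDT hSP huBd) hTE hAS) (te1 hUG)
    (cof (cofStep (univSys hUE (univRefl hRE realChain) abs') (liftMix hDT hSP huMix) hTE) hSI hGI)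
    (g1 hSI)
  have hA := amain hM shapeEx (bigSys (bigStep (aaex hA1) hUG goodT) hGI)
    (realStep oneB (extMap (seqAmalg amalgFam))) realChain
  have hU := unif famMorley
  have hKS := kStab (base hU)
  glue (Q := fun k l => ∀ n : ℕ, hanf (Order.succ^[n] k) ≤ l)
    (fun C hC => kmain (nat hU) longOP (noOP hU hKS) (uu (subEx hU)) opEx (base hU) hA C fun n =>
      satH (base hU) hKS hUE hRE realChain C (Order.le_succ_iterate n _) (hC n))
    L K hAP lam (hl 0) hl hcat θ hθ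

end Pool.Agent.P.MP_860a31_lc.Old.Eventual
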